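import Mathlib
import Pool.Agent.Helper718_bisection.SliceGraph

/-!
# Judicious bisections: the exact constant for graphs of maximum degree at most `m/t`

Put `t = 2⌊k/2⌋ + 1`. The least constant `c` such that every graph with `m` edges, minimum degree
at least `k` and maximum degree at most `m/t` has a bisection whose classes span at most `c m`
edges each is exactly `1/4 + 1/(4t)`.
-/

namespace Pool.Agent.Results.MP_5a0985_co.FlatExact

open Pool.Agent.Helper718_bisection

/-- The constants `c` such that every finite simple graph `G` with `m` edges, minimum degree at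
least `k` and maximum degree at most `m / t` has a bisection `V₁, V₂` with
`max (e(V₁)) (e(V₂)) ≤ c m`. -/
def AdmissibleFlat (k t : ℕ) : Set ℝ :=
  {c | ∀ (V : Type) [Fintype V] (G : SimpleGraph V), (∀ v, k ≤ (G.neighborSet v).ncard) →
    (∀ v, t * (G.neighborSet v).ncard ≤ G.edgeSet.ncard) →
    ∃ V₁ V₂ : Set V, IsBisection V₁ V₂ ∧
      max (edgesWithin G V₁ : ℝ) (edgesWithin G V₂ : ℝ) ≤ c * (G.edgeSet.ncard : ℝ)}

/-- The least constant for graphs of minimum degree at least `k` and maximum degree at most
`m / t`, where `t = 2⌊k/2⌋ + 1`, is `1/4 + 1/(4t)`. -/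
theorem result (k t : ℕ) (hk : 2 ≤ k) (ht : t = 2 * (k / 2) + 1) :
    IsLeast (AdmissibleFlat k t) (1 / 4 + 1 / (4 * (t : ℝ))) := by
  have hodd : Odd t := ⟨k / 2, ht⟩
  have htpos : (0 : ℝ) < t := by
    have : 0 < t := by omega
    exact_mod_cast this
  refine ⟨?_, fun c hc => ?_⟩
  · intro V _ G _ hflat
    obtain ⟨V₁, V₂, hV, hm⟩ := Slice.all_bisection G
      (D := (G.edgeSet.ncard : ℝ) / t) (by positivity) (fun v => by
        rw [le_div_iff₀ htpos]
        have h2 : (t : ℝ) * ((G.neighborSet v).ncard : ℝ) ≤ (G.edgeSet.ncard : ℝ) := by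
          exact_mod_cast hflat v
        linarith)
    refine ⟨V₁, V₂, hV, hm.trans (le_of_eq ?_)⟩
    field_simp
  · refine Slice.lower_of hodd fun l hl => ?_
    obtain ⟨V₁, V₂, hV, hm⟩ := hc (Fin t ⊕ Fin l) (completeBipartiteGraph (Fin t) (Fin l))
      (fun v => by
        rw [Slice.deg_bip]
        cases v <;> simp <;> omega)
      (fun v => by
        rw [Slice.deg_bip, Slice.edges_bip]
        cases v
        · simp
        · simp only [Sum.elim_inr]
          exact Nat.mul_le_mul_left _ hl)
    rw [Slice.edges_bip] at hm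
    push_cast at hm
    exact ⟨V₁, V₂, hV, hm⟩

end Pool.Agent.Results.MP_5a0985_co.FlatExact
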