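import Mathlib
import Pool.Agent.Helper718_bisection.SliceGraph

/-!
# Judicious bisections: every graph has a bisection whose classes span at most `(m + D)/4` edges
-/

namespace Pool.Agent.Results.MP_5a0985_co.MaxDegree

open Pool.Agent.Helper718_bisection

/-- Let `G` be a finite simple graph with `m` edges in which any two degrees differ by at most `W`,
and all degrees are at most `W` if the number of vertices is odd. Then `G` has a bisection in which
each class spans at most `(m + W)/4` edges. -/
theorem result (V : Type) [Fintype V] (G : SimpleGraph V) (W : ℕ)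
    (hW : ∀ u v, (G.neighborSet u).ncard ≤ (G.neighborSet v).ncard + W)
    (hodd : Odd (Fintype.card V) → ∀ v, (G.neighborSet v).ncard ≤ W) :
    ∃ V₁ V₂ : Set V, IsBisection V₁ V₂ ∧
      max (edgesWithin G V₁ : ℝ) (edgesWithin G V₂ : ℝ) ≤ ((G.edgeSet.ncard : ℝ) + W) / 4 := by
  rcases Nat.even_or_odd (Fintype.card V) with hev | ho
  · refine Slice.even_bisection G hev (W := (W : ℝ)) (by positivity) fun u v => ?_
    have : ((G.neighborSet u).ncard : ℝ) ≤ (G.neighborSet v).ncard + W := by
      exact_mod_cast hW u v
    linarith
  · exact Slice.all_bisection G (D := (W : ℝ)) (by positivity)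
      (fun v => by exact_mod_cast hodd ho v)

end Pool.Agent.Results.MP_5a0985_co.MaxDegree
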