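import Mathlib
import Pool.Agent.Helper718_bisection.SliceGraph

/-!
# Judicious bisections of graphs with given minimum degree: two-sided bounds for `c(k)`

Put `t = 2⌊k/2⌋ + 1`. We show `1/4 + 1/(4t) ≤ c(k) ≤ 1/4 + 1/(2t)` for every `k ≥ 2`.

The definitions `edgesWithin`, `IsBisection` and `Admissible` are in
`Pool.Agent.Helper718_bisection.Defs`, the proof is in `Slice.lean` and `SliceGraph.lean` of that
folder.
-/

namespace Pool.Agent.Results.MP_5a0985_co.SecondOrder

open Pool.Agent.Helper718_bisection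

/-- **Two-sided bounds for `c(k)`.** Let `k ≥ 2` and `t = 2⌊k/2⌋ + 1`. Every constant that is
admissible for `k` is at least `1/4 + 1/(4t)`, and the constant `1/4 + 1/(2t)` is admissible. -/
theorem result (k t : ℕ) (hk : 2 ≤ k) (ht : t = 2 * (k / 2) + 1) :
    (∀ c ∈ Admissible k, 1 / 4 + 1 / (4 * (t : ℝ)) ≤ c) ∧
    1 / 4 + 1 / (2 * (t : ℝ)) ∈ Admissible k := by
  have hodd : Odd t := ⟨k / 2, ht⟩
  have htpos : (0 : ℝ) < t := by
    have : 0 < t := by omega
    exact_mod_cast this
  have hk1 : t - 1 ≤ k := by omega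
  refine ⟨fun c hc => ?_, ?_⟩
  · refine Slice.lower_of hodd fun l hl => ?_
    obtain ⟨V₁, V₂, hV, hm⟩ := hc (Fin t ⊕ Fin l) (completeBipartiteGraph (Fin t) (Fin l))
      (fun v => by
        rw [Slice.deg_bip]
        cases v <;> simp <;> omega)
    rw [Slice.edges_bip] at hm
    push_cast at hm
    exact ⟨V₁, V₂, hV, hm⟩
  · intro V _ G hdeg
    obtain ⟨V₁, V₂, hV, hm⟩ := Slice.all_bisection G
      (D := 2 * (G.edgeSet.ncard : ℝ) / t) (by positivity) (fun v => by
        rw [le_div_iff₀ htpos]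
        have := Slice.deg_le G (t := t) (fun v => hk1.trans (hdeg v)) v
        have h2 : (t : ℝ) * ((G.neighborSet v).ncard : ℝ) ≤ 2 * (G.edgeSet.ncard : ℝ) := by
          exact_mod_cast this
        linarith)
    refine ⟨V₁, V₂, hV, hm.trans (le_of_eq ?_)⟩
    field_simp
    ring

end Pool.Agent.Results.MP_5a0985_co.SecondOrder
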